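import Pool.Agent.helper4.HL.Spec

/-!
# Project hl: module KOL (helper24)
-/

open scoped BigOperators ComplexOrder ComplexConjugate Topology

namespace Pool.Agent.HL

open Pool.Agent.helper86.CM Pool.Agent.QS Filter MeasureTheory

noncomputable section

theorem KOL : KOL_stmt := by
  intro Γ _ h Φ hPD S
  classical
  let m := S.card
  let e : S ≃ Fin m := S.equivFin
  have hM := hPD m (fun i => ((e.symm i : S) : Γ))
  obtain ⟨q, B, hB⟩ := Matrix.posSemidef_iff_eq_sum_vecMulVec.1 hM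
  refine ⟨q, fun x => if hx : x ∈ S then
    WithLp.toLp 2 (fun k => (starRingEnd ℂ) (B k (e ⟨x, hx⟩))) else 0, ?_⟩
  intro x hx y hy
  have h1 : (Matrix.of fun i j => ee (-h ((e.symm i : S) : Γ) ((e.symm j : S) : Γ)) *
      Φ (((e.symm j : S) : Γ) - ((e.symm i : S) : Γ))) (e ⟨x, hx⟩) (e ⟨y, hy⟩) =
      (∑ i, Matrix.vecMulVec (B i) (star (B i))) (e ⟨x, hx⟩) (e ⟨y, hy⟩) := by rw [hB]
  rw [Matrix.sum_apply] at h1
  simp only [Matrix.of_apply, Equiv.symm_apply_apply] at h1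
  rw [h1]
  dsimp only
  rw [dif_pos hx, dif_pos hy, PiLp.inner_apply]
  refine Finset.sum_congr rfl fun k _ => ?_
  simp [Matrix.vecMulVec_apply, mul_comm]

end

end Pool.Agent.HL
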