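import Pool.Agent.helper4.HL.Spec

/-!
# Project hl: module UDI (helper24)
-/

open scoped BigOperators ComplexOrder ComplexConjugate Topology

namespace Pool.Agent.HL

open Pool.Agent.helper86.CM Pool.Agent.QS Filter MeasureTheory

noncomputable section

theorem UDI_cos (ω a b : ℝ) (hω : ω ≠ 0) : |∫ x in a..b, Real.cos (ω * x)| ≤ 2 / |ω| := by
  rw [intervalIntegral.integral_comp_mul_left (fun x => Real.cos x) hω, integral_cos, smul_eq_mul,
    abs_mul, abs_inv, div_eq_inv_mul]
  gcongr
  refine (abs_sub _ _).trans ?_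
  have h1 := Real.abs_sin_le_one (ω * b)
  have h2 := Real.abs_sin_le_one (ω * a)
  linarith

theorem UDI_ee (x : ℝ) : ee x = ⟨Real.cos (2 * Real.pi * x), Real.sin (2 * Real.pi * x)⟩ := by
  have h : ee x = Complex.exp ((2 * Real.pi * x : ℝ) * Complex.I) := by
    unfold ee
    congr 1
    push_cast
    ring
  rw [h]
  apply Complex.ext
  · rw [Complex.exp_ofReal_mul_I_re]
  · rw [Complex.exp_ofReal_mul_I_im]

theorem UDI_norm (m : ℕ) (θ : ℕ → ℝ) : ‖∑ s ∈ Finset.range m, ee (θ s)‖ ^ 2 =
    ∑ s ∈ Finset.range m, ∑ t ∈ Finset.range m, Real.cos (2 * Real.pi * (θ s - θ t)) := by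
  rw [Complex.sq_norm, Complex.normSq_apply, Complex.re_sum, Complex.im_sum, Finset.sum_mul_sum,
    Finset.sum_mul_sum, ← Finset.sum_add_distrib]
  refine Finset.sum_congr rfl fun s _ => ?_
  rw [← Finset.sum_add_distrib]
  refine Finset.sum_congr rfl fun t _ => ?_
  rw [mul_sub, Real.cos_sub, UDI_ee, UDI_ee]

theorem UDI_geom (m : ℕ) : ∑ s ∈ Finset.range m, (s : ℝ) * (1 / 2) ^ s ≤ 2 := by
  have h : ∑ s ∈ Finset.range m, (s : ℝ) * (1 / 2) ^ s = 2 - 2 * (m + 1) * (1 / 2) ^ m := by
    induction m with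
    | zero => simp
    | succ m ih =>
      rw [Finset.sum_range_succ, ih, pow_succ]
      push_cast
      ring
  rw [h]
  have : 0 ≤ 2 * ((m : ℝ) + 1) * (1 / 2) ^ m := by positivity
  linarith

theorem UDI : UDI_stmt := by
  intro a b l κ hab hl hκ
  have hπ := Real.pi_pos
  have hκ' : 0 < |κ| := abs_pos.2 hκ
  let D : ℝ := 2 / (Real.pi * |κ|)
  have hD : 0 ≤ D := by positivity
  refine ⟨(b - a) + 4 * D, by linarith [sub_nonneg.2 hab], ?_⟩
  intro m hm
  have hm0 : (0 : ℝ) < m := by exact_mod_cast hm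
  have hl0 : (0 : ℝ) < l := by linarith
  -- the square of the mean
  have h1 : ∀ x : ℝ, ‖(m : ℂ)⁻¹ * ∑ s ∈ Finset.range m, ee (l ^ s * κ * x)‖ ^ 2 =
      ((m : ℝ) ^ 2)⁻¹ * ∑ s ∈ Finset.range m, ∑ t ∈ Finset.range m,
        Real.cos ((2 * Real.pi * κ * (l ^ s - l ^ t)) * x) := by
    intro x
    rw [norm_mul, mul_pow, UDI_norm m fun s => l ^ s * κ * x]
    congr 1
    · simp
    · refine Finset.sum_congr rfl fun s _ => Finset.sum_congr rfl fun t _ => ?_
      congr 1
      ring
  simp only [h1]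
  rw [intervalIntegral.integral_const_mul, intervalIntegral.integral_finsetSum]
  swap
  · intro s _
    refine Continuous.intervalIntegrable ?_ a b
    fun_prop
  have h2 : ∀ s ∈ Finset.range m, ∫ x in a..b, ∑ t ∈ Finset.range m,
      Real.cos ((2 * Real.pi * κ * (l ^ s - l ^ t)) * x) = ∑ t ∈ Finset.range m,
      ∫ x in a..b, Real.cos ((2 * Real.pi * κ * (l ^ s - l ^ t)) * x) := by
    intro s _
    rw [intervalIntegral.integral_finsetSum]
    intro t _
    refine Continuous.intervalIntegrable ?_ a b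
    fun_prop
  rw [Finset.sum_congr rfl h2]
  -- single terms
  have h3 : ∀ s t : ℕ, t < s →
      |∫ x in a..b, Real.cos ((2 * Real.pi * κ * (l ^ s - l ^ t)) * x)| ≤ D * (1 / 2) ^ s := by
    intro s t hts
    have hlt : 2 * l ^ t ≤ l ^ s := by
      calc 2 * l ^ t ≤ l * l ^ t := by gcongr
        _ = l ^ (t + 1) := by ring
        _ ≤ l ^ s := pow_le_pow_right₀ (by linarith) hts
    have hpos : 0 < l ^ t := pow_pos hl0 t
    have hdiff : l ^ s / 2 ≤ l ^ s - l ^ t := by linarith
    have hls : 0 < l ^ s := pow_pos hl0 s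
    have hne : 2 * Real.pi * κ * (l ^ s - l ^ t) ≠ 0 := by
      have : 0 < l ^ s - l ^ t := by linarith
      positivity
    refine (UDI_cos _ a b hne).trans ?_
    have habs : |2 * Real.pi * κ * (l ^ s - l ^ t)| = 2 * Real.pi * |κ| * (l ^ s - l ^ t) := by
      rw [abs_mul, abs_mul, abs_of_pos (by positivity : 0 < 2 * Real.pi),
        abs_of_pos (by linarith : 0 < l ^ s - l ^ t)]
    rw [habs]
    have h2s : (2 : ℝ) ^ s ≤ l ^ s := by gcongr
    calc 2 / (2 * Real.pi * |κ| * (l ^ s - l ^ t)) ≤ 2 / (2 * Real.pi * |κ| * (2 ^ s / 2)) := by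
          gcongr
          linarith
      _ = D * (1 / 2) ^ s := by
          simp only [D]
          rw [one_div, inv_pow]
          field_simp
  have h4 : ∀ s t : ℕ, ∫ x in a..b, Real.cos ((2 * Real.pi * κ * (l ^ s - l ^ t)) * x) ≤
      (if t = s then (b - a) else 0) + (if t < s then D * (1 / 2) ^ s else 0) +
        (if s < t then D * (1 / 2) ^ t else 0) := by
    intro s t
    rcases lt_trichotomy s t with h | rfl | h
    · rw [if_neg (by omega), if_neg (by omega), if_pos h]
      have h5 := h3 t s h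
      have h6 : ∫ x in a..b, Real.cos ((2 * Real.pi * κ * (l ^ s - l ^ t)) * x) =
          ∫ x in a..b, Real.cos ((2 * Real.pi * κ * (l ^ t - l ^ s)) * x) := by
        congr 1
        funext x
        rw [← Real.cos_neg]
        congr 1
        ring
      rw [h6]
      linarith [le_abs_self (∫ x in a..b, Real.cos ((2 * Real.pi * κ * (l ^ t - l ^ s)) * x))]
    · simp
    · rw [if_neg (by omega), if_pos h, if_neg (by omega)]
      have h5 := h3 s t h
      linarith [le_abs_self (∫ x in a..b, Real.cos ((2 * Real.pi * κ * (l ^ s - l ^ t)) * x))]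
  have h5 : ∑ s ∈ Finset.range m, ∑ t ∈ Finset.range m,
      ∫ x in a..b, Real.cos ((2 * Real.pi * κ * (l ^ s - l ^ t)) * x) ≤ m * (b - a) + 4 * D := by
    refine (Finset.sum_le_sum fun s _ => Finset.sum_le_sum fun t _ => h4 s t).trans ?_
    simp only [Finset.sum_add_distrib]
    have e1 : ∑ s ∈ Finset.range m, ∑ t ∈ Finset.range m, (if t = s then (b - a) else 0) =
        m * (b - a) := by
      rw [Finset.sum_congr rfl fun s hs => by
        rw [Finset.sum_ite_eq' (Finset.range m) s fun _ => b - a, if_pos hs]]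
      rw [Finset.sum_const, Finset.card_range, nsmul_eq_mul]
    have e2 : ∑ s ∈ Finset.range m, ∑ t ∈ Finset.range m,
        (if t < s then D * (1 / 2) ^ s else 0) ≤ 2 * D := by
      have e3 : ∀ s ∈ Finset.range m, ∑ t ∈ Finset.range m, (if t < s then D * (1 / 2) ^ s else 0) =
          D * ((s : ℝ) * (1 / 2) ^ s) := by
        intro s hs
        rw [← Finset.sum_filter, Finset.sum_const, nsmul_eq_mul]
        have : ((Finset.range m).filter fun t => t < s) = Finset.range s := by
          ext t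
          simp only [Finset.mem_filter, Finset.mem_range] at hs ⊢
          omega
        rw [this, Finset.card_range]
        ring
      rw [Finset.sum_congr rfl e3, ← Finset.mul_sum, mul_comm 2 D]
      exact mul_le_mul_of_nonneg_left (UDI_geom m) hD
    have e4 : ∑ s ∈ Finset.range m, ∑ t ∈ Finset.range m,
        (if s < t then D * (1 / 2) ^ t else 0) ≤ 2 * D := by
      rw [Finset.sum_comm]
      exact e2
    rw [e1]
    linarith
  calc ((m : ℝ) ^ 2)⁻¹ * _ ≤ ((m : ℝ) ^ 2)⁻¹ * (m * (b - a) + 4 * D) := by gcongr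
    _ ≤ ((m : ℝ) ^ 2)⁻¹ * (m * (b - a) + m * (4 * D)) := by
        have : 4 * D ≤ m * (4 * D) := le_mul_of_one_le_left (by positivity) (by exact_mod_cast hm)
        gcongr
    _ = _ := by field_simp

end

end Pool.Agent.HL
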