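import Pool.Agent.helper4.HL.Spec

/-!
# Project hl: module VDC (helper24)
-/

open scoped BigOperators ComplexOrder ComplexConjugate Topology

namespace Pool.Agent.HL

open Pool.Agent.helper86.CM Pool.Agent.QS Filter MeasureTheory

noncomputable section

section

variable {H : Type} [NormedAddCommGroup H]

/-- sums of a bounded function over two intervals which differ by a shift -/
theorem VDC_shift (f : ℕ → H) (hf : ∀ s, ‖f s‖ ≤ 1) (l h : ℕ) :
    ‖∑ s ∈ Finset.range l, f (s + h) - ∑ s ∈ Finset.range l, f s‖ ≤ 2 * h := by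
  induction h with
  | zero => simp
  | succ h ih =>
    have h1 : ∑ s ∈ Finset.range l, f (s + (h + 1)) =
        ∑ s ∈ Finset.range l, f (s + h) + f (l + h) - f h := by
      have h2 := Finset.sum_range_succ (fun s => f (s + h)) l
      have h3 := Finset.sum_range_succ' (fun s => f (s + h)) l
      rw [h2] at h3
      simp only [zero_add] at h3
      rw [h3, add_sub_cancel_right]
      exact Finset.sum_congr rfl fun s _ => by rw [add_right_comm, add_assoc]
    rw [h1]
    have h4 : ∑ s ∈ Finset.range l, f (s + h) + f (l + h) - f h - ∑ s ∈ Finset.range l, f s =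
        (∑ s ∈ Finset.range l, f (s + h) - ∑ s ∈ Finset.range l, f s) + (f (l + h) - f h) := by abel
    rw [h4]
    push_cast
    calc _ ≤ _ := norm_add_le _ _
      _ ≤ 2 * (h : ℝ) + (1 + 1) := add_le_add ih ((norm_sub_le _ _).trans (add_le_add (hf _) (hf _)))
      _ = 2 * ((h : ℝ) + 1) := by ring

end

theorem VDC : VDC_stmt := by
  intro H _ _ w hw l M hl hM
  have hl0 : (0 : ℝ) < l := by exact_mod_cast hl
  have hM0 : (0 : ℝ) < M := by exact_mod_cast hM
  -- correlations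
  let c : ℕ → ℕ → ℂ := fun h h' => (l : ℂ)⁻¹ * ∑ s ∈ Finset.range l, inner ℂ (w (s + h)) (w (s + h'))
  let b : H := (l : ℂ)⁻¹ • ∑ s ∈ Finset.range l, (M : ℂ)⁻¹ • ∑ h ∈ Finset.range M, w (s + h)
  let a : H := (l : ℂ)⁻¹ • ∑ s ∈ Finset.range l, w s
  have hnl : ‖(l : ℂ)⁻¹‖ = (l : ℝ)⁻¹ := by simp
  have hnM : ‖(M : ℂ)⁻¹‖ = (M : ℝ)⁻¹ := by simp
  have hlC : (l : ℂ) ≠ 0 := by exact_mod_cast hl0.ne'
  have hMC : (M : ℂ) ≠ 0 := by exact_mod_cast hM0.ne'
  have ha : ‖a‖ ≤ 1 := by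
    simp only [a]
    rw [norm_smul, hnl, inv_mul_le_iff₀ hl0, mul_one]
    refine (norm_sum_le _ _).trans ?_
    refine (Finset.sum_le_card_nsmul _ _ 1 fun s _ => hw s).trans ?_
    simp
  have hinner : ∀ s, ‖(M : ℂ)⁻¹ • ∑ h ∈ Finset.range M, w (s + h)‖ ≤ 1 := by
    intro s
    rw [norm_smul, hnM, inv_mul_le_iff₀ hM0, mul_one]
    refine (norm_sum_le _ _).trans ?_
    refine (Finset.sum_le_card_nsmul _ _ 1 fun s _ => hw _).trans ?_
    simp
  have hb : ‖b‖ ≤ 1 := by
    simp only [b]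
    rw [norm_smul, hnl, inv_mul_le_iff₀ hl0, mul_one]
    refine (norm_sum_le _ _).trans ?_
    refine (Finset.sum_le_card_nsmul _ _ 1 fun s _ => hinner s).trans ?_
    simp
  -- the difference of a and b
  have hab : ‖a - b‖ ≤ M / l := by
    have h1 : a - b = (l : ℂ)⁻¹ • ((M : ℂ)⁻¹ • ∑ h ∈ Finset.range M,
        (∑ s ∈ Finset.range l, w s - ∑ s ∈ Finset.range l, w (s + h))) := by
      simp only [a, b]
      rw [← smul_sub]
      congr 1
      rw [← Finset.smul_sum, Finset.sum_comm, Finset.sum_sub_distrib, smul_sub]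
      congr 1
      rw [Finset.sum_const, Finset.card_range, ← Nat.cast_smul_eq_nsmul ℂ, smul_smul,
        inv_mul_cancel₀ hMC, one_smul]
    rw [h1, norm_smul, norm_smul, hnl, hnM]
    have h2 : ‖∑ h ∈ Finset.range M,
        (∑ s ∈ Finset.range l, w s - ∑ s ∈ Finset.range l, w (s + h))‖ ≤ (M : ℝ) ^ 2 := by
      refine (norm_sum_le _ _).trans ?_
      have h3 : ∀ h ∈ Finset.range M,
          ‖∑ s ∈ Finset.range l, w s - ∑ s ∈ Finset.range l, w (s + h)‖ ≤ 2 * (h : ℝ) := by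
        intro h _
        rw [norm_sub_rev]
        exact VDC_shift w hw l h
      refine (Finset.sum_le_sum h3).trans ?_
      have h4 : ∀ n : ℕ, ∑ h ∈ Finset.range n, 2 * (h : ℝ) = (n : ℝ) ^ 2 - n := by
        intro n
        induction n with
        | zero => simp
        | succ n ih =>
          rw [Finset.sum_range_succ, ih]
          push_cast
          ring
      rw [h4]
      linarith
    calc (l : ℝ)⁻¹ * ((M : ℝ)⁻¹ * _) ≤ (l : ℝ)⁻¹ * ((M : ℝ)⁻¹ * (M : ℝ) ^ 2) := by gcongr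
      _ = M / l := by field_simp
  have hab2 : ‖a‖ ^ 2 ≤ ‖b‖ ^ 2 + 2 * M / l := by
    have h1 : ‖a‖ ≤ ‖b‖ + M / l := by
      have h2 := norm_sub_norm_le a b
      linarith
    have h3 : ‖a‖ - ‖b‖ ≤ M / l := by linarith
    have h0 : 0 ≤ (M : ℝ) / l := by positivity
    have h4 : ‖a‖ ^ 2 - ‖b‖ ^ 2 = (‖a‖ - ‖b‖) * (‖a‖ + ‖b‖) := by ring
    have h5 : 0 ≤ ‖a‖ + ‖b‖ := by positivity
    have h6 : (‖a‖ - ‖b‖) * (‖a‖ + ‖b‖) ≤ (M / l) * 2 := by
      calc _ ≤ (M : ℝ) / l * (‖a‖ + ‖b‖) := by gcongr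
        _ ≤ _ := by gcongr; linarith
    have h7 : 2 * (M : ℝ) / l = (M / l) * 2 := by ring
    rw [h7]
    linarith
  -- the square of b
  have hbsq : ‖b‖ ^ 2 ≤ ((M : ℝ) ^ 2)⁻¹ * ∑ h ∈ Finset.range M, ∑ h' ∈ Finset.range M, ‖c h h'‖ := by
    have h1 : ‖b‖ ^ 2 ≤ (l : ℝ)⁻¹ * ∑ s ∈ Finset.range l,
        ‖(M : ℂ)⁻¹ • ∑ h ∈ Finset.range M, w (s + h)‖ ^ 2 := by
      have h2 : ‖b‖ ≤ (l : ℝ)⁻¹ * ∑ s ∈ Finset.range l,
          ‖(M : ℂ)⁻¹ • ∑ h ∈ Finset.range M, w (s + h)‖ := by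
        simp only [b]
        rw [norm_smul, hnl]
        gcongr
        exact norm_sum_le _ _
      calc ‖b‖ ^ 2 ≤ ((l : ℝ)⁻¹ * ∑ s ∈ Finset.range l,
          ‖(M : ℂ)⁻¹ • ∑ h ∈ Finset.range M, w (s + h)‖) ^ 2 := by gcongr
        _ = (l : ℝ)⁻¹ ^ 2 * (∑ s ∈ Finset.range l,
          ‖(M : ℂ)⁻¹ • ∑ h ∈ Finset.range M, w (s + h)‖) ^ 2 := by ring
        _ ≤ (l : ℝ)⁻¹ ^ 2 * ((Finset.range l).card * ∑ s ∈ Finset.range l,
          ‖(M : ℂ)⁻¹ • ∑ h ∈ Finset.range M, w (s + h)‖ ^ 2) := by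
            gcongr
            exact sq_sum_le_card_mul_sum_sq
        _ = _ := by
            rw [Finset.card_range]
            field_simp
    refine h1.trans ?_
    have h3 : ∀ s, ‖(M : ℂ)⁻¹ • ∑ h ∈ Finset.range M, w (s + h)‖ ^ 2 =
        ((M : ℝ) ^ 2)⁻¹ * (∑ h ∈ Finset.range M, ∑ h' ∈ Finset.range M,
          inner ℂ (w (s + h)) (w (s + h'))).re := by
      intro s
      rw [norm_smul, hnM, mul_pow, inv_pow]
      congr 1
      rw [@norm_sq_eq_re_inner ℂ, sum_inner]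
      simp only [inner_sum]
      rfl
    have h4 : (l : ℝ)⁻¹ * ∑ s ∈ Finset.range l,
        ‖(M : ℂ)⁻¹ • ∑ h ∈ Finset.range M, w (s + h)‖ ^ 2 = ((M : ℝ) ^ 2)⁻¹ *
        (∑ h ∈ Finset.range M, ∑ h' ∈ Finset.range M, c h h').re := by
      simp only [h3]
      rw [← Finset.mul_sum, ← mul_assoc, mul_comm (l : ℝ)⁻¹, mul_assoc]
      congr 1
      rw [← Complex.re_sum, ← Complex.re_ofReal_mul]
      congr 1
      simp only [c]
      push_cast
      rw [Finset.sum_comm, Finset.mul_sum]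
      refine Finset.sum_congr rfl fun h _ => ?_
      rw [Finset.sum_comm, Finset.mul_sum]
    rw [h4]
    gcongr
    refine (Complex.re_le_norm _).trans ?_
    refine (norm_sum_le _ _).trans ?_
    exact Finset.sum_le_sum fun h _ => norm_sum_le _ _
  -- single correlations
  let g : ℕ → ℝ := fun d => ‖(l : ℂ)⁻¹ * ∑ s ∈ Finset.range l, inner ℂ (w s) (w (s + d))‖
  have hg0 : ∀ d, 0 ≤ g d := fun d => norm_nonneg _
  have hin : ∀ s s', ‖(inner ℂ (w s) (w s') : ℂ)‖ ≤ 1 := fun s s' =>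
    (norm_inner_le_norm _ _).trans (mul_le_one₀ (hw s) (norm_nonneg _) (hw s'))
  have hc1 : ∀ h d, h < M → ‖c h (h + d)‖ ≤ g d + 2 * M / l := by
    intro h d hh
    have h1 := VDC_shift (fun s => (inner ℂ (w s) (w (s + d)) : ℂ)) (fun s => hin _ _) l h
    have h2 : c h (h + d) = (l : ℂ)⁻¹ * ∑ s ∈ Finset.range l, inner ℂ (w s) (w (s + d)) +
        (l : ℂ)⁻¹ * (∑ s ∈ Finset.range l, inner ℂ (w (s + h)) (w (s + h + d)) -
          ∑ s ∈ Finset.range l, inner ℂ (w s) (w (s + d))) := by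
      simp only [c, add_assoc]
      ring
    rw [h2]
    refine (norm_add_le _ _).trans ?_
    refine add_le_add le_rfl ?_
    rw [norm_mul, hnl, div_eq_inv_mul]
    gcongr
    refine h1.trans ?_
    gcongr
  have hc2 : ∀ h h', c h' h = (starRingEnd ℂ) (c h h') := by
    intro h h'
    simp only [c, map_mul, map_sum, map_inv₀, Complex.conj_natCast, inner_conj_symm]
  have hc3 : ∀ h h', ‖c h' h‖ = ‖c h h'‖ := by
    intro h h'
    rw [hc2, RCLike.norm_conj]
  have hc0 : ∀ h h', ‖c h h'‖ ≤ 1 := by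
    intro h h'
    simp only [c]
    rw [norm_mul, hnl, inv_mul_le_iff₀ hl0, mul_one]
    refine (norm_sum_le _ _).trans ?_
    refine (Finset.sum_le_card_nsmul _ _ 1 fun s _ => hin _ _).trans ?_
    simp
  have h0 : 0 ≤ 2 * (M : ℝ) / l := by positivity
  have hc : ∀ h < M, ∀ h' < M, ‖c h h'‖ ≤ (if h' = h then 1 else 0) + 2 * M / l +
      (if h' < h then g (h - h') else 0) + (if h < h' then g (h' - h) else 0) := by
    intro h hh h' hh'
    rcases lt_trichotomy h h' with hlt | rfl | hlt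
    · rw [if_neg (by omega), if_neg (by omega), if_pos hlt]
      have := hc1 h (h' - h) hh
      rw [Nat.add_sub_cancel' hlt.le] at this
      linarith
    · simp only [lt_irrefl, if_true, if_false]
      linarith [hc0 h h]
    · rw [if_neg (by omega), if_pos hlt, if_neg (by omega)]
      have := hc1 h' (h - h') hh'
      rw [Nat.add_sub_cancel' hlt.le] at this
      rw [hc3 h' h]
      linarith
  have hrow : ∀ h < M, ∑ h' ∈ Finset.range M, ‖c h h'‖ ≤ 1 + M * (2 * M / l) +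
      2 * ∑ d ∈ Finset.Ico 1 M, g d := by
    intro h hh
    refine (Finset.sum_le_sum fun h' hh' => hc h hh h' (Finset.mem_range.1 hh')).trans ?_
    simp only [Finset.sum_add_distrib]
    have s1 : ∑ h' ∈ Finset.range M, (if h' = h then (1 : ℝ) else 0) = 1 := by
      rw [Finset.sum_ite_eq' (Finset.range M) h fun _ => (1 : ℝ), if_pos (Finset.mem_range.2 hh)]
    have s2 : ∑ h' ∈ Finset.range M, (2 * (M : ℝ) / l) = M * (2 * M / l) := by
      rw [Finset.sum_const, Finset.card_range, nsmul_eq_mul]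
    have s3 : ∑ h' ∈ Finset.range M, (if h' < h then g (h - h') else 0) ≤
        ∑ d ∈ Finset.Ico 1 M, g d := by
      rw [← Finset.sum_filter, ← Finset.sum_image (f := g) (g := fun h' => h - h')
        (s := (Finset.range M).filter fun h' => h' < h)]
      · refine Finset.sum_le_sum_of_subset_of_nonneg ?_ fun d _ _ => hg0 d
        intro d hd
        simp only [Finset.mem_image, Finset.mem_filter, Finset.mem_range] at hd
        obtain ⟨h', ⟨h1, h2⟩, rfl⟩ := hd
        rw [Finset.mem_Ico]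
        omega
      · intro a ha b hb hab
        simp only [Finset.coe_filter, Finset.mem_range, Set.mem_ofPred_eq] at ha hb
        dsimp only at hab
        omega
    have s4 : ∑ h' ∈ Finset.range M, (if h < h' then g (h' - h) else 0) ≤
        ∑ d ∈ Finset.Ico 1 M, g d := by
      rw [← Finset.sum_filter, ← Finset.sum_image (f := g) (g := fun h' => h' - h)
        (s := (Finset.range M).filter fun h' => h < h')]
      · refine Finset.sum_le_sum_of_subset_of_nonneg ?_ fun d _ _ => hg0 d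
        intro d hd
        simp only [Finset.mem_image, Finset.mem_filter, Finset.mem_range] at hd
        obtain ⟨h', ⟨h1, h2⟩, rfl⟩ := hd
        rw [Finset.mem_Ico]
        omega
      · intro a ha b hb hab
        simp only [Finset.coe_filter, Finset.mem_range, Set.mem_ofPred_eq] at ha hb
        dsimp only at hab
        omega
    rw [s1, s2]
    linarith
  have htot : ∑ h ∈ Finset.range M, ∑ h' ∈ Finset.range M, ‖c h h'‖ ≤
      M * (1 + M * (2 * M / l) + 2 * ∑ d ∈ Finset.Ico 1 M, g d) := by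
    refine (Finset.sum_le_sum fun h hh => hrow h (Finset.mem_range.1 hh)).trans ?_
    rw [Finset.sum_const, Finset.card_range, nsmul_eq_mul]
  have hfin : ‖b‖ ^ 2 ≤ 1 / M + 2 * M / l + 2 / M * ∑ d ∈ Finset.Ico 1 M, g d := by
    refine hbsq.trans ?_
    calc _ ≤ ((M : ℝ) ^ 2)⁻¹ * (M * (1 + M * (2 * M / l) + 2 * ∑ d ∈ Finset.Ico 1 M, g d)) := by
          gcongr
      _ = _ := by field_simp
  calc ‖a‖ ^ 2 ≤ ‖b‖ ^ 2 + 2 * M / l := hab2
    _ ≤ (1 / M + 2 * M / l + 2 / M * ∑ d ∈ Finset.Ico 1 M, g d) + 2 * M / l := by gcongr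
    _ = _ := by ring

end

end Pool.Agent.HL
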